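import Pool.Agent.Results.MP_fdf3ca_an.SpaceableBergman

open Filter Topology MeasureTheory Metric
open scoped ENNReal

namespace Pool.Agent.Y247.SA

open Pool.Agent.Results.MP_fdf3ca_an.SpaceableHD Pool.Agent.Results.MP_fdf3ca_an.SpaceableBergman

/-- The subset `{x : J x strongly annular}` is spaceable in `X`: some closed infinite-dimensional
subspace of `X` has only strongly annular nonzero elements. -/
def Spaceable {X : Type*} [AddCommMonoid X] [Module ℂ X] [TopologicalSpace X] (J : X →ₗ[ℂ] HolD) : Prop :=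
  ∃ M : Submodule ℂ X, IsClosed (M : Set X) ∧ ¬ Module.Finite ℂ M ∧
    ∀ x ∈ M, x ≠ 0 → StronglyAnnular (J x).1

theorem not_finite_of_biorthogonal' {V : Type*} [AddCommMonoid V] [Module ℂ V] (f : ℕ → V)
    (ψ : ℕ → V →ₗ[ℂ] ℂ) (h1 : ∀ i, ψ i (f i) ≠ 0) (h2 : ∀ i j, j ≠ i → ψ i (f j) = 0) :
    ¬ Module.Finite ℂ V := by
  let _ : AddCommGroup V := Module.addCommMonoidToAddCommGroup ℂ
  exact not_finite_of_biorthogonal f ψ h1 h2

/-- the pull back of the pattern subspace -/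
theorem core {X : Type*} [AddCommMonoid X] [Module ℂ X] [TopologicalSpace X]
    (J : X →ₗ[ℂ] HolD) (hJ : Function.Injective J) (hc : ∀ n, Continuous fun x => coeffL n (J x))
    (N : ℕ → ℕ) (hN0 : 1 ≤ N 0) (hN : ∀ m, 1024 * N m ≤ N (m+1))
    (hf : ∀ i, ∃ x : X, J x ∈ MSub N ∧ coeffL (N (Nat.pair i 0)) (J x) ≠ 0 ∧
      ∀ l, l ≠ i → coeffL (N (Nat.pair l 0)) (J x) = 0) : Spaceable J := by
  refine ⟨(MSub N).comap J, ?_, ?_, ?_⟩
  · have h1 : (((MSub N).comap J : Submodule ℂ X) : Set X) =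
        (⋂ n ∈ (Set.range N)ᶜ, {x : X | coeffL n (J x) = 0}) ∩
        ⋂ i, ⋂ k, {x : X | (16:ℂ) ^ (Nat.pair i 0) * coeffL (N (Nat.pair i k)) (J x)
        = 16 ^ (Nat.pair i k) * coeffL (N (Nat.pair i 0)) (J x)} := by
      ext x
      simp only [Set.mem_inter_iff, Set.mem_iInter, Set.mem_ofPred_eq, Set.mem_compl_iff]
      exact Iff.rfl
    rw [h1]
    refine IsClosed.inter ?_ ?_
    · exact isClosed_biInter fun n _ => isClosed_eq (hc n) continuous_const
    · exact isClosed_iInter fun i => isClosed_iInter fun k =>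
        isClosed_eq (continuous_const.mul (hc _)) (continuous_const.mul (hc _))
  · choose x h1 h2 h3 using hf
    apply not_finite_of_biorthogonal' (V := ((MSub N).comap J : Submodule ℂ X))
      (fun i => ⟨x i, h1 i⟩)
      (fun i => ((coeffL (N (Nat.pair i 0))).comp J).comp ((MSub N).comap J).subtype)
    · intro i
      exact h2 i
    · intro i j hj
      exact h3 j i hj.symm
  · intro x hx hne
    refine strongly_annular_of_mem N hN0 hN (J x) hx ?_
    intro h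
    apply hne
    apply hJ
    rw [h, map_zero]

/-- recursive choice of rapidly growing exponents -/
theorem exists_N (P : ℕ → ℕ → Prop) (h : ∀ m n₀, ∃ n, n₀ ≤ n ∧ P m n) :
    ∃ N : ℕ → ℕ, 1 ≤ N 0 ∧ (∀ m, 1024 * N m ≤ N (m+1)) ∧ ∀ m, P m (N m) := by
  choose g hg1 hg2 using h
  let N : ℕ → ℕ := fun m => Nat.rec (g 0 1) (fun m n => g (m+1) (1024 * n)) m
  refine ⟨N, hg1 0 1, fun m => hg1 (m+1) (1024 * N m), fun m => ?_⟩
  cases m with
  | zero => exact hg2 0 1
  | succ m => exact hg2 (m+1) (1024 * N m)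

/-- the exponents adapted to a weight -/
theorem weight_exponent (ω : ℝ → ℝ) (h1 : ∀ r, 0 ≤ r → r < 1 → 1 ≤ ω r)
    (h2 : Tendsto ω (𝓝[<] 1) atTop) (m n₀ : ℕ) :
    ∃ n, n₀ ≤ n ∧ ∀ r : ℝ, 0 ≤ r → r < 1 → (16:ℝ) ^ m * r ^ n ≤ (1/2) ^ (m+1) * ω r := by
  have h3 : ∀ᶠ r in 𝓝[<] (1:ℝ), 2 ^ (m+1) * (16:ℝ) ^ m ≤ ω r := h2.eventually_ge_atTop _
  obtain ⟨l, hl, hlU⟩ := mem_nhdsLT_iff_exists_Ioo_subset.1 h3
  have hl1 : l < 1 := hl
  set l' : ℝ := max ((1 + l) / 2) 0 with hl'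
  have hl'0 : 0 ≤ l' := le_max_right _ _
  have hl'1 : l' < 1 := by rw [hl', max_lt_iff]; constructor <;> linarith
  have hll' : l < l' := lt_of_lt_of_le (by linarith) (le_max_left _ _)
  have h4 : Tendsto (fun n : ℕ => (16:ℝ) ^ m * l' ^ n) atTop (𝓝 0) := by
    have := (tendsto_pow_atTop_nhds_zero_of_lt_one hl'0 hl'1).const_mul ((16:ℝ) ^ m)
    simpa using this
  have h5 : ∀ᶠ n : ℕ in atTop, (16:ℝ) ^ m * l' ^ n < (1/2) ^ (m+1) :=
    h4.eventually_lt_const (by positivity)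
  obtain ⟨n, hn1, hn2⟩ := (h5.and (eventually_ge_atTop n₀)).exists
  refine ⟨n, hn2, fun r hr0 hr1 => ?_⟩
  rcases lt_or_ge r l' with h6 | h6
  · calc (16:ℝ) ^ m * r ^ n ≤ 16 ^ m * l' ^ n := by gcongr
      _ ≤ (1/2) ^ (m+1) * 1 := by linarith
      _ ≤ (1/2) ^ (m+1) * ω r := by
        have := h1 r hr0 hr1
        gcongr
  · have h7 : 2 ^ (m+1) * (16:ℝ) ^ m ≤ ω r := hlU ⟨by linarith, hr1⟩
    calc (16:ℝ) ^ m * r ^ n ≤ 16 ^ m * 1 := by
          gcongr
          exact pow_le_one₀ hr0 hr1.le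
      _ = (1/2) ^ (m+1) * (2 ^ (m+1) * 16 ^ m) := by
          rw [one_div_pow]; field_simp
      _ ≤ _ := by gcongr

/-- **Spaces containing a growth class.** -/
theorem spaceable_of_growth {X : Type*} [AddCommMonoid X] [Module ℂ X] [TopologicalSpace X]
    (J : X →ₗ[ℂ] HolD) (hJ : Function.Injective J) (hc : ∀ n, Continuous fun x => coeffL n (J x))
    (ω : ℝ → ℝ) (h1 : ∀ r, 0 ≤ r → r < 1 → 1 ≤ ω r) (h2 : Tendsto ω (𝓝[<] 1) atTop)
    (h3 : ∀ f : HolD, (∀ z : Disc, ‖f.1 z‖ ≤ ω ‖(z:ℂ)‖) → ∃ x, J x = f) : Spaceable J := by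
  obtain ⟨N, hN0, hN, hP⟩ := exists_N _ (weight_exponent ω h1 h2)
  refine core J hJ hc N hN0 hN fun i => ?_
  obtain ⟨f, hf1, hf2, hf3, hf4⟩ := exists_elt N hN0 hN i
  obtain ⟨x, hx⟩ := h3 f (fun z => by
    have hz : ‖(z:ℂ)‖ < 1 := mem_ball_zero_iff.1 z.2
    have hω := h1 _ (norm_nonneg (z:ℂ)) hz
    have hs : HasSum (fun k : ℕ => (1/2:ℝ) ^ (k+1) * ω ‖(z:ℂ)‖) (ω ‖(z:ℂ)‖) := by
      have h5 : HasSum (fun k : ℕ => (1/2:ℝ) ^ k) 2 := hasSum_geometric_two
      have h6 := h5.mul_right ((1/2) * ω ‖(z:ℂ)‖)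
      have e1 : (fun k : ℕ => (1/2:ℝ) ^ (k+1) * ω ‖(z:ℂ)‖) = fun k : ℕ => (1/2:ℝ) ^ k * ((1/2) * ω ‖(z:ℂ)‖) := by
        funext k; rw [pow_succ]; ring
      have e2 : (2:ℝ) * ((1/2) * ω ‖(z:ℂ)‖) = ω ‖(z:ℂ)‖ := by ring
      rw [e1]
      rw [e2] at h6
      exact h6
    have hle : ∀ k, ‖(16:ℂ) ^ (Nat.pair i k) * (z:ℂ) ^ (N (Nat.pair i k))‖ ≤
        (1/2:ℝ) ^ (k+1) * ω ‖(z:ℂ)‖ := by
      intro k
      have h7 : ‖(16:ℂ)‖ = 16 := by simp
      rw [norm_mul, norm_pow, norm_pow, h7]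
      refine (hP (Nat.pair i k) _ (norm_nonneg _) hz).trans ?_
      apply mul_le_mul_of_nonneg_right _ (by linarith)
      apply pow_le_pow_of_le_one (by norm_num) (by norm_num)
      have := Nat.right_le_pair i k
      omega
    have h8 := tsum_of_norm_bounded hs hle
    rwa [(hf4 z).tsum_eq] at h8)
  refine ⟨x, ?_, ?_, fun l hl => ?_⟩
  · rw [hx]; exact hf1
  · rw [hx, hf2]; exact pow_ne_zero _ (by norm_num)
  · rw [hx]; exact hf3 l hl 0

/-- the coefficients of a monomial -/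
theorem coeff_monomial (g : HolD) (d : ℕ) (hg : ∀ z : Disc, g.1 z = (z:ℂ) ^ d) (n : ℕ) :
    coeffL n g = if n = d then 1 else 0 := by
  obtain ⟨f, hf1, hf2⟩ := exists_hol (fun n => if n = d then 1 else 0) (by
    intro r _ _
    apply summable_of_ne_finset_zero (s := {d})
    intro n hn
    rw [Finset.mem_singleton] at hn
    simp [hn])
  have hfg : f = g := by
    ext z
    have h1 := hf2 z
    have h2 : HasSum (fun n : ℕ => (if n = d then (1:ℂ) else 0) * (z:ℂ) ^ n) ((z:ℂ) ^ d) := by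
      have h3 := hasSum_single (f := fun n : ℕ => (if n = d then (1:ℂ) else 0) * (z:ℂ) ^ n) d
        (fun n hn => by simp [hn])
      simpa using h3
    rw [hg z]
    exact h1.unique h2
  rw [← hfg, hf1]

/-- **Complete metric spaces with small monomials.** -/
theorem spaceable_of_monomials {X : Type*} [AddCommMonoid X] [Module ℂ X] [MetricSpace X] [CompleteSpace X]
    [ContinuousConstSMul ℂ X] (hinv : ∀ x y z : X, dist (x + z) (y + z) = dist x y)
    (J : X →ₗ[ℂ] HolD) (hJ : Function.Injective J) (hc : ∀ n, Continuous fun x => coeffL n (J x))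
    (h : ∀ ε : ℝ, 0 < ε → ∀ n₀ : ℕ, ∃ n, n₀ ≤ n ∧ ∃ x : X, (∀ z : Disc, (J x).1 z = (z:ℂ) ^ n) ∧
      dist x 0 < ε) : Spaceable J := by
  have hstep : ∀ m n₀ : ℕ, ∃ n, n₀ ≤ n ∧ ∃ x : X, (∀ z : Disc, (J x).1 z = (z:ℂ) ^ n) ∧
      dist ((16:ℂ) ^ m • x) 0 < (1/2) ^ (m+1) := by
    intro m n₀
    have h1 : Continuous fun x : X => (16:ℂ) ^ m • x := continuous_const_smul _
    have h2 := (Metric.continuous_iff.1 h1) 0 ((1/2) ^ (m+1)) (by positivity)
    obtain ⟨δ, hδ, hδ2⟩ := h2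
    obtain ⟨n, hn, x, hx1, hx2⟩ := h δ hδ n₀
    refine ⟨n, hn, x, hx1, ?_⟩
    have h3 := hδ2 x hx2
    rwa [smul_zero] at h3
  obtain ⟨N, hN0, hN, hP⟩ := exists_N _ hstep
  choose e he1 he2 using hP
  have hinj := N_inj N hN0 hN
  refine core J hJ hc N hN0 hN fun i => ?_
  -- the partial sums
  let S : ℕ → X := fun K => ∑ k ∈ Finset.range K, (16:ℂ) ^ (Nat.pair i k) • e (Nat.pair i k)
  have hcauchy : CauchySeq S := by
    apply cauchySeq_of_le_geometric (r := (1/2 : ℝ)) (C := 1) (by norm_num)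
    intro K
    have h1 : S (K+1) = (16:ℂ) ^ (Nat.pair i K) • e (Nat.pair i K) + S K := by
      simp only [S]; rw [Finset.sum_range_succ]; exact add_comm _ _
    have h2 : dist (S K) (S (K+1)) = dist ((16:ℂ) ^ (Nat.pair i K) • e (Nat.pair i K)) 0 := by
      rw [h1, dist_comm]
      have := hinv ((16:ℂ) ^ (Nat.pair i K) • e (Nat.pair i K)) 0 (S K)
      rwa [zero_add] at this
    rw [h2, one_mul]
    refine (he2 (Nat.pair i K)).le.trans ?_
    apply pow_le_pow_of_le_one (by norm_num) (by norm_num)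
    have := Nat.right_le_pair i K
    omega
  obtain ⟨x, hx⟩ := cauchySeq_tendsto_of_complete hcauchy
  have hco : ∀ n, Tendsto (fun K => coeffL n (J (S K))) atTop (𝓝 (coeffL n (J x))) := fun n =>
    ((hc n).tendsto x).comp hx
  have hS : ∀ n K, coeffL n (J (S K)) =
      ∑ k ∈ Finset.range K, (16:ℂ) ^ (Nat.pair i k) * (if n = N (Nat.pair i k) then 1 else 0) := by
    intro n K
    simp only [S]
    rw [map_sum, map_sum]
    apply Finset.sum_congr rfl
    intro k _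
    rw [map_smul, map_smul, smul_eq_mul, coeff_monomial _ _ (he1 _)]
  have hval : ∀ k, coeffL (N (Nat.pair i k)) (J x) = 16 ^ (Nat.pair i k) := by
    intro k
    have h1 : ∀ᶠ K in atTop, coeffL (N (Nat.pair i k)) (J (S K)) = 16 ^ (Nat.pair i k) := by
      filter_upwards [eventually_gt_atTop k] with K hK
      rw [hS, Finset.sum_eq_single k]
      · simp
      · intro k' _ hk'
        have : N (Nat.pair i k) ≠ N (Nat.pair i k') := by
          intro h2
          exact hk' (pair_inj i (hinj h2)).symm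
        simp [this]
      · intro h2
        exact absurd (Finset.mem_range.2 hK) h2
    exact tendsto_nhds_unique (hco _) (tendsto_const_nhds.congr' (h1.mono fun K hK => hK.symm))
  have hzero : ∀ n, (∀ k, n ≠ N (Nat.pair i k)) → coeffL n (J x) = 0 := by
    intro n hn
    have h1 : ∀ K, coeffL n (J (S K)) = 0 := by
      intro K
      rw [hS]
      apply Finset.sum_eq_zero
      intro k _
      simp [hn k]
    exact tendsto_nhds_unique (hco n) (tendsto_const_nhds.congr fun K => (h1 K).symm)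
  have hother : ∀ l, l ≠ i → ∀ k, coeffL (N (Nat.pair l k)) (J x) = 0 := by
    intro l hl k
    apply hzero
    intro k' h1
    exact hl (Nat.pair_eq_pair.1 (hinj h1)).1
  refine ⟨x, ⟨fun n hn => ?_, fun l k => ?_⟩, ?_, fun l hl => hother l hl 0⟩
  · exact hzero n fun k hk => hn ⟨_, hk.symm⟩
  · by_cases hl : l = i
    · subst hl
      rw [hval, hval]; ring
    · rw [hother l hl, hother l hl]; simp
  · rw [hval]; exact pow_ne_zero _ (by norm_num)

/-- the inclusion of the Bergman space in `H(𝔻)` -/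
noncomputable def inclB (p α : ℝ) (hp : 0 < p) : Bergman p α hp →ₗ[ℂ] HolD where
  toFun f := f.toHol
  map_add' _ _ := rfl
  map_smul' _ _ := rfl

theorem inclB_inj (p α : ℝ) (hp : 0 < p) : Function.Injective (inclB p α hp) := by
  intro f g h
  have h5 : f.1 = g.1 := congrArg (fun x : HolD => x.1) h
  exact Subtype.ext h5

/-- functions of small growth belong to the Bergman space -/
theorem growth_mem (p α : ℝ) (hp : 0 < p) (hα : -1 < α) (f : HolD)
    (hf : ∀ z : Disc, ‖f.1 z‖ ≤ (1 - ‖(z:ℂ)‖) ^ (-((α + 1) / (2 * p)))) : bnorm p α f.1 < ⊤ := by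
  have hfin : ∫⁻ z : Disc, ‖f.1 z‖ₑ ^ p * ENNReal.ofReal ((1 - ‖(z : ℂ)‖) ^ α) ∂area < ⊤ := by
    rw [lint_eq]
    refine lt_of_le_of_lt ?_ (lintegral_weight ((α - 1) / 2) (by linarith) 1 zero_le_one)
    apply setLIntegral_mono' measurableSet_ball
    intro z hz
    have hz' : ‖z‖ < 1 := mem_ball_zero_iff.1 hz
    have h1z : 0 < 1 - ‖z‖ := by linarith
    rw [ext_apply _ _ hz, ← ofReal_norm, ENNReal.ofReal_rpow_of_nonneg (norm_nonneg _) hp.le,
      ← ENNReal.ofReal_mul (by positivity)]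
    apply ENNReal.ofReal_le_ofReal
    have h1 := hf ⟨z, hz⟩
    have h2 : ‖f.1 ⟨z, hz⟩‖ ^ p ≤ (1 - ‖z‖) ^ (-(α + 1) / 2) := by
      calc ‖f.1 ⟨z, hz⟩‖ ^ p ≤ ((1 - ‖z‖) ^ (-((α + 1) / (2 * p)))) ^ p :=
            Real.rpow_le_rpow (norm_nonneg _) h1 hp.le
        _ = (1 - ‖z‖) ^ (-(α + 1) / 2) := by
            rw [← Real.rpow_mul h1z.le]
            congr 1
            field_simp
    calc ‖f.1 ⟨z, hz⟩‖ ^ p * (1 - ‖z‖) ^ α
        ≤ ((1 - ‖z‖) ^ (-(α + 1) / 2)) * (1 - ‖z‖) ^ α := by gcongr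
      _ = 1 * (1 - ‖z‖) ^ ((α - 1) / 2) := by
          rw [← Real.rpow_add h1z, one_mul]
          congr 1
          ring
  have hm : 0 < min 1 (1 / p) := lt_min one_pos (by positivity)
  apply ENNReal.rpow_lt_top_of_nonneg hm.le
  exact (ENNReal.div_lt_top hfin.ne (by simp [Real.pi_pos])).ne

theorem spaceable_bergman (p α : ℝ) (hp : 0 < p) (hα : -1 < α) : Spaceable (inclB p α hp) := by
  have hδ : 0 < (α + 1) / (2 * p) := by
    have : 0 < α + 1 := by linarith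
    positivity
  refine spaceable_of_growth (inclB p α hp) (inclB_inj p α hp) (fun n => coeff_continuousB p α hp n)
    (fun r => (1 - r) ^ (-((α + 1) / (2 * p)))) ?_ ?_ ?_
  · intro r hr0 hr1
    exact Real.one_le_rpow_of_pos_of_le_one_of_nonpos (by linarith) (by linarith) (by linarith)
  · have h1 : Tendsto (fun r : ℝ => 1 - r) (𝓝[<] 1) (𝓝[>] 0) := by
      apply tendsto_nhdsWithin_of_tendsto_nhds_of_eventually_within
      · have : Tendsto (fun r : ℝ => 1 - r) (𝓝 1) (𝓝 (1 - 1)) := tendsto_const_nhds.sub tendsto_id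
        rw [sub_self] at this
        exact this.mono_left nhdsWithin_le_nhds
      · filter_upwards [self_mem_nhdsWithin] with r hr
        have : r < 1 := hr
        simp only [Set.mem_Ioi]; linarith
    exact (tendsto_rpow_neg_nhdsGT_zero (by linarith)).comp h1
  · intro f hf
    exact ⟨⟨f.1, f.2, growth_mem p α hp hα f hf⟩, rfl⟩

/-- every finite measure on the disc admits an unbounded weight whose `p`-th power is integrable -/
theorem exists_weight (p : ℝ) (hp : 0 < p) (μ : Measure Disc) [IsFiniteMeasure μ] :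
    ∃ ω : ℝ → ℝ, (∀ r, 0 ≤ r → r < 1 → 1 ≤ ω r) ∧ Tendsto ω (𝓝[<] 1) atTop ∧
      ∫⁻ z : Disc, ENNReal.ofReal (ω ‖(z:ℂ)‖ ^ p) ∂μ < ⊤ := by
  classical
  -- radii with small tails
  have hrad : ∀ k : ℕ, ∃ ρ : ℝ, 1 - 1 / ((k:ℝ) + 1) ≤ ρ ∧ ρ < 1 ∧
      μ {z : Disc | ρ ≤ ‖(z:ℂ)‖} ≤ (1/2 : ℝ≥0∞) ^ k := by
    intro k
    have h1 : Tendsto (fun n : ℕ => μ {z : Disc | 1 - 1 / ((n:ℝ) + 1) ≤ ‖(z:ℂ)‖}) atTop
        (𝓝 (μ (⋂ n : ℕ, {z : Disc | 1 - 1 / ((n:ℝ) + 1) ≤ ‖(z:ℂ)‖}))) := by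
      apply tendsto_measure_iInter_atTop
      · intro n
        apply MeasurableSet.nullMeasurableSet
        exact measurableSet_le measurable_const (continuous_subtype_val.norm.measurable)
      · intro m n hmn z hz
        simp only [Set.mem_ofPred_eq] at hz ⊢
        have h2 : 1 / ((n:ℝ) + 1) ≤ 1 / ((m:ℝ) + 1) := by
          have : (m:ℝ) ≤ n := by exact_mod_cast hmn
          gcongr
        linarith
      · exact ⟨0, measure_ne_top _ _⟩
    have h2 : (⋂ n : ℕ, {z : Disc | 1 - 1 / ((n:ℝ) + 1) ≤ ‖(z:ℂ)‖}) = ∅ := by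
      rw [Set.eq_empty_iff_forall_notMem]
      intro z hz
      rw [Set.mem_iInter] at hz
      have hz1 : ‖(z:ℂ)‖ < 1 := mem_ball_zero_iff.1 z.2
      obtain ⟨n, hn⟩ := exists_nat_one_div_lt (sub_pos.2 hz1)
      have := hz n
      simp only [Set.mem_ofPred_eq] at this
      linarith
    rw [h2, measure_empty] at h1
    have h3 : ∀ᶠ n : ℕ in atTop, μ {z : Disc | 1 - 1 / ((n:ℝ) + 1) ≤ ‖(z:ℂ)‖} < (1/2 : ℝ≥0∞) ^ k := by
      apply h1.eventually_lt_const
      exact ENNReal.pow_pos (by simp) k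
    obtain ⟨n, hn1, hn2⟩ := (h3.and (eventually_ge_atTop k)).exists
    refine ⟨1 - 1 / ((n:ℝ) + 1), ?_, ?_, hn1.le⟩
    · have : (k:ℝ) ≤ n := by exact_mod_cast hn2
      have h4 : 1 / ((n:ℝ) + 1) ≤ 1 / ((k:ℝ) + 1) := by gcongr
      linarith
    · have : (0:ℝ) < 1 / ((n:ℝ) + 1) := by positivity
      linarith
  choose ρ hρ1 hρ2 hρ3 using hrad
  let g : ℝ → ℝ≥0∞ := fun r => ∑' k : ℕ, if ρ k ≤ r then 1 else 0
  have hgfin : ∀ r, r < 1 → g r < ⊤ := by
    intro r hr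
    obtain ⟨n, hn⟩ := exists_nat_one_div_lt (sub_pos.2 hr)
    have h1 : g r = ∑ k ∈ Finset.range n, if ρ k ≤ r then 1 else 0 := by
      apply tsum_eq_sum
      intro k hk
      rw [Finset.mem_range, not_lt] at hk
      rw [if_neg]
      have h2 := hρ1 k
      have h3 : (n:ℝ) ≤ k := by exact_mod_cast hk
      have h4 : 1 / ((k:ℝ) + 1) ≤ 1 / ((n:ℝ) + 1) := by gcongr
      linarith
    rw [h1]
    apply ENNReal.sum_lt_top.2
    intro k _
    split_ifs <;> simp
  have hgmeas : Measurable fun z : Disc => g ‖(z:ℂ)‖ := by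
    apply Measurable.tsum
    intro k
    apply Measurable.ite _ measurable_const measurable_const
    exact measurableSet_le measurable_const (continuous_subtype_val.norm.measurable)
  have hgint : ∫⁻ z : Disc, g ‖(z:ℂ)‖ ∂μ < ⊤ := by
    have h1 : ∫⁻ z : Disc, g ‖(z:ℂ)‖ ∂μ = ∑' k : ℕ, μ {z : Disc | ρ k ≤ ‖(z:ℂ)‖} := by
      simp only [g]
      rw [lintegral_tsum]
      · congr 1
        funext k
        have h2 : (fun z : Disc => if ρ k ≤ ‖(z:ℂ)‖ then (1:ℝ≥0∞) else 0)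
            = Set.indicator {z : Disc | ρ k ≤ ‖(z:ℂ)‖} 1 := by
          funext z
          simp [Set.indicator_apply]
        rw [h2, lintegral_indicator_one]
        exact measurableSet_le measurable_const (continuous_subtype_val.norm.measurable)
      · intro k
        apply Measurable.aemeasurable
        apply Measurable.ite _ measurable_const measurable_const
        exact measurableSet_le measurable_const (continuous_subtype_val.norm.measurable)
    rw [h1]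
    refine lt_of_le_of_lt (ENNReal.tsum_le_tsum hρ3) ?_
    rw [ENNReal.tsum_geometric]
    simp
  refine ⟨fun r => (1 + (g r).toReal) ^ (1 / p), ?_, ?_, ?_⟩
  · intro r _ _
    apply Real.one_le_rpow _ (by positivity)
    have := ENNReal.toReal_nonneg (a := g r)
    linarith
  · have h1 : Tendsto (fun r => 1 + (g r).toReal) (𝓝[<] 1) atTop := by
      rw [Filter.tendsto_atTop]
      intro A
      obtain ⟨K, hK⟩ := exists_nat_gt A
      have h2 : ∀ᶠ r in 𝓝[<] (1:ℝ), ∀ k ∈ Finset.range K, ρ k ≤ r := by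
        rw [Filter.eventually_all_finset]
        intro k _
        exact (Ioo_mem_nhdsLT (hρ2 k)) |> fun h => by
          filter_upwards [h] with r hr using hr.1.le
      filter_upwards [h2, self_mem_nhdsWithin] with r hr1 hr2
      have hr3 : r < 1 := hr2
      have h3 : (K : ℝ≥0∞) ≤ g r := by
        calc (K : ℝ≥0∞) = ∑ k ∈ Finset.range K, (if ρ k ≤ r then 1 else 0) := by
              rw [Finset.sum_congr rfl (fun k hk => if_pos (hr1 k hk))]
              simp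
          _ ≤ g r := ENNReal.sum_le_tsum _
      have h4 : (K:ℝ) ≤ (g r).toReal := by
        have := ENNReal.toReal_mono (hgfin r hr3).ne h3
        simpa using this
      linarith
    exact (tendsto_rpow_atTop (by positivity)).comp h1
  · have h1 : ∀ z : Disc, ENNReal.ofReal (((1 + (g ‖(z:ℂ)‖).toReal) ^ (1 / p)) ^ p) = 1 + g ‖(z:ℂ)‖ := by
      intro z
      have hz1 : ‖(z:ℂ)‖ < 1 := mem_ball_zero_iff.1 z.2
      have h2 := ENNReal.toReal_nonneg (a := g ‖(z:ℂ)‖)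
      rw [← Real.rpow_mul (by linarith), one_div_mul_cancel hp.ne', Real.rpow_one,
        ENNReal.ofReal_add zero_le_one h2, ENNReal.ofReal_one, ENNReal.ofReal_toReal (hgfin _ hz1).ne]
    simp only [h1]
    rw [lintegral_add_left measurable_const, lintegral_const, one_mul]
    exact ENNReal.add_lt_top.2 ⟨measure_lt_top _ _, hgint⟩

theorem add_rpow_le (p : ℝ) (hp : 0 < p) (a b : ℝ≥0∞) : (a + b) ^ p ≤ 2 ^ p * (a ^ p + b ^ p) := by
  rcases le_total a b with h | h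
  · calc (a + b) ^ p ≤ (2 * b) ^ p := by
          gcongr
          rw [two_mul]; gcongr
      _ = 2 ^ p * b ^ p := ENNReal.mul_rpow_of_nonneg _ _ hp.le
      _ ≤ _ := by gcongr; exact le_add_self
  · calc (a + b) ^ p ≤ (2 * a) ^ p := by
          gcongr
          rw [two_mul]; gcongr
      _ = 2 ^ p * a ^ p := ENNReal.mul_rpow_of_nonneg _ _ hp.le
      _ ≤ _ := by gcongr; exact le_self_add

/-- membership in `L^p(μ) ∩ H(𝔻)` -/
def InLp (p : ℝ) (μ : Measure Disc) (f : C(Disc, ℂ)) : Prop :=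
  f ∈ HolD ∧ ∫⁻ z : Disc, ‖f z‖ₑ ^ p ∂μ < ⊤

theorem InLp.add {p : ℝ} (hp : 0 < p) {μ : Measure Disc} {f g : C(Disc, ℂ)} (hf : InLp p μ f)
    (hg : InLp p μ g) : InLp p μ (f + g) := by
  refine ⟨HolD.add_mem hf.1 hg.1, ?_⟩
  have hfm : Measurable fun z : Disc => ‖f z‖ₑ := f.continuous.measurable.enorm
  have h1 : ∫⁻ z : Disc, ‖(f + g) z‖ₑ ^ p ∂μ ≤
      2 ^ p * (∫⁻ z : Disc, ‖f z‖ₑ ^ p ∂μ + ∫⁻ z : Disc, ‖g z‖ₑ ^ p ∂μ) := by
    rw [← lintegral_add_left (hfm.pow_const p), ← lintegral_const_mul' _ _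
      (ENNReal.rpow_ne_top_of_nonneg hp.le (by simp))]
    apply lintegral_mono
    intro z
    refine le_trans ?_ (add_rpow_le p hp _ _)
    have h2 : ‖(f + g) z‖ₑ ≤ ‖f z‖ₑ + ‖g z‖ₑ := enorm_add_le _ _
    exact ENNReal.rpow_le_rpow h2 hp.le
  refine lt_of_le_of_lt h1 ?_
  apply ENNReal.mul_lt_top
  · exact ENNReal.rpow_lt_top_of_nonneg hp.le (by simp)
  · exact ENNReal.add_lt_top.2 ⟨hf.2, hg.2⟩

theorem InLp.zero {p : ℝ} (hp : 0 < p) {μ : Measure Disc} : InLp p μ 0 := by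
  refine ⟨HolD.zero_mem, ?_⟩
  simp [hp]

theorem InLp.smul {p : ℝ} (hp : 0 < p) {μ : Measure Disc} (c : ℂ) {f : C(Disc, ℂ)} (hf : InLp p μ f) :
    InLp p μ (c • f) := by
  refine ⟨HolD.smul_mem c hf.1, ?_⟩
  have h1 : ∫⁻ z : Disc, ‖(c • f) z‖ₑ ^ p ∂μ = ‖c‖ₑ ^ p * ∫⁻ z : Disc, ‖f z‖ₑ ^ p ∂μ := by
    rw [← lintegral_const_mul' _ _ (ENNReal.rpow_ne_top_of_nonneg hp.le enorm_ne_top)]
    apply lintegral_congr
    intro z
    change ‖c • f z‖ₑ ^ p = _
    rw [enorm_smul, ENNReal.mul_rpow_of_nonneg _ _ hp.le]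
  rw [h1]
  exact ENNReal.mul_lt_top (ENNReal.rpow_lt_top_of_nonneg hp.le enorm_ne_top) hf.2

/-- The holomorphic functions on `𝔻` with `∫_𝔻 |f|^p dμ < ∞`, a linear subspace of `C(𝔻, ℂ)`. -/
def LpSub (p : ℝ) (hp : 0 < p) (μ : Measure Disc) : Submodule ℂ C(Disc, ℂ) where
  carrier := {f | InLp p μ f}
  add_mem' := InLp.add hp
  zero_mem' := InLp.zero hp
  smul_mem' := InLp.smul hp

/-- the inclusion of `L^p(μ) ∩ H(𝔻)` (with the topology of locally uniform convergence) in `H(𝔻)` -/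
noncomputable def inclL (p : ℝ) (hp : 0 < p) (μ : Measure Disc) : LpSub p hp μ →ₗ[ℂ] HolD where
  toFun f := ⟨f.1, f.2.1⟩
  map_add' _ _ := rfl
  map_smul' _ _ := rfl

theorem spaceable_Lp (p : ℝ) (hp : 0 < p) (μ : Measure Disc) [IsFiniteMeasure μ] :
    Spaceable (inclL p hp μ) := by
  obtain ⟨ω, h1, h2, h3⟩ := exists_weight p hp μ
  refine spaceable_of_growth (inclL p hp μ) ?_ ?_ ω h1 h2 ?_
  · intro f g h
    have h5 : f.1 = g.1 := congrArg (fun x : HolD => x.1) h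
    exact Subtype.ext h5
  · intro n
    have h4 : Continuous (fun f : LpSub p hp μ => ((inclL p hp μ) f)) :=
      Continuous.subtype_mk continuous_subtype_val _
    exact (coeff_continuous n).comp h4
  · intro f hf
    refine ⟨⟨f.1, f.2, ?_⟩, rfl⟩
    refine lt_of_le_of_lt (lintegral_mono fun z => ?_) h3
    rw [← ofReal_norm, ENNReal.ofReal_rpow_of_nonneg (norm_nonneg _) hp.le]
    exact ENNReal.ofReal_le_ofReal (Real.rpow_le_rpow (norm_nonneg _) (hf z) hp.le)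

theorem spaceable_H : Spaceable (LinearMap.id : HolD →ₗ[ℂ] HolD) := by
  refine spaceable_of_growth LinearMap.id (fun _ _ h => h) coeff_continuous
    (fun r => (1 - r)⁻¹) ?_ ?_ (fun f _ => ⟨f, rfl⟩)
  · intro r hr0 hr1
    exact (one_le_inv₀ (by linarith)).2 (by linarith)
  · have h1 : Tendsto (fun r : ℝ => 1 - r) (𝓝[<] 1) (𝓝[>] 0) := by
      apply tendsto_nhdsWithin_of_tendsto_nhds_of_eventually_within
      · have : Tendsto (fun r : ℝ => 1 - r) (𝓝 1) (𝓝 (1 - 1)) := tendsto_const_nhds.sub tendsto_id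
        rw [sub_self] at this
        exact this.mono_left nhdsWithin_le_nhds
      · filter_upwards [self_mem_nhdsWithin] with r hr
        have : r < 1 := hr
        simp only [Set.mem_Ioi]; linarith
    exact tendsto_inv_nhdsGT_zero.comp h1

end Pool.Agent.Y247.SA
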